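import Pool.Agent.V11244.SD.Main

/-!
# Chow-Kunneth decompositions from one correspondence
-/

open CategoryTheory AlgebraicGeometry Polynomial

universe u v w

namespace Pool.Agent.V11244.CK

open Pool.Agent.H914 Pool.Agent.H914.VarClass Pool.Agent.H914.VarClass.Obj Pool.Agent.W492.BB
  Pool.Agent.W550.Corr Pool.Agent.TH133 Pool.Agent.V11244.SD

set_option linter.unusedSectionVars false

lemma crt (N : ℕ) (P : ℕ → ℚ[X]) (hP : ∀ i < N, ∀ j < N, i ≠ j → IsCoprime (P i) (P j)) (m : ℕ) :
    ∃ E : ℕ → ℚ[X], (∀ i < N, P i ^ m ∣ E i - 1) ∧ ∀ i < N, ∀ j < N, i ≠ j → P j ^ m ∣ E i := by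
  have h : ∀ i : ℕ, ∃ e : ℚ[X], i < N → P i ^ m ∣ e - 1 ∧ ∀ j < N, i ≠ j → P j ^ m ∣ e := by
    intro i
    by_cases hi : i < N
    · have h1 : IsCoprime (P i ^ m) (∏ j ∈ (Finset.range N).erase i, P j ^ m) := by
        refine IsCoprime.prod_right fun j hj => ?_
        rw [Finset.mem_erase, Finset.mem_range] at hj
        exact (hP i hi j hj.2 (Ne.symm hj.1)).pow
      obtain ⟨a, b, hab⟩ := h1
      refine ⟨b * ∏ j ∈ (Finset.range N).erase i, P j ^ m, fun _ => ⟨⟨-a, ?_⟩, fun j hj hij => ?_⟩⟩
      · rw [← hab]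
        ring
      · exact Dvd.dvd.mul_left (Finset.dvd_prod_of_mem _
          (Finset.mem_erase.2 ⟨Ne.symm hij, Finset.mem_range.2 hj⟩)) _
    · exact ⟨0, fun h => absurd h hi⟩
  choose E hE using h
  exact ⟨E, fun i hi => (hE i hi).1, fun i hi j hj hij => (hE i hi).2 j hj hij⟩

variable {k : Type u} [Field k] {𝒱 : VarClass k}

/-- The value `P(a)` of a polynomial `P` at a correspondence `a`. -/
noncomputable def evalAt (C : TheoryData.{u, v, 0} 𝒱 ℚ) {X : 𝒱.Obj} (a : C.A (X.prod X))
    (P : ℚ[X]) : C.A (X.prod X) :=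
  ∑ i ∈ Finset.range (P.natDegree + 1), P.coeff i • compList C X (List.replicate i a)

/-- The correspondence `a` of degree zero separates the cohomology groups: there are pairwise
coprime polynomials `P i`, `0 ≤ i ≤ 2 dim X`, such that `P i (a)` acts as zero on `H^i(X)`, and the
correspondence `P 0 (a) ∘ ⋯ ∘ P (2 dim X) (a)` is nilpotent. -/
def Separates {C : TheoryData.{u, v, 0} 𝒱 ℚ} {K : Type w} [Field K]
    (H : WeilTheoryData.{u, v, w} C K) {X : 𝒱.Obj} (a : C.A (X.prod X)) (P : ℕ → ℚ[X]) : Prop :=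
  C.Deg X.dim a ∧ (∀ i ≤ 2 * X.dim, ∀ j ≤ 2 * X.dim, i ≠ j → IsCoprime (P i) (P j)) ∧
    (∀ i ≤ 2 * X.dim, ∀ x : H.A X, H.Deg i x → H.act (H.cl (evalAt C a (P i))) x = 0) ∧
    ∃ m, PowZero C (evalAt C a (∏ i ∈ Finset.range (2 * X.dim + 1), P i)) m

variable {C : TheoryData.{u, v, 0} 𝒱 ℚ} [hC : IsChowProj C] {K : Type w} [Field K]
  {H : WeilTheoryData.{u, v, w} C K} [hH : IsWeilProj H] {X : 𝒱.Obj}

include hC

lemma evalAt_eq (a : C.A (X.prod X)) (P : ℚ[X]) : cor (evalAt C a P) = aeval (cor a) P := by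
  rw [aeval_eq_sum_range]
  have h : ∀ i, (cor a) ^ i = cor (compList C X (List.replicate i a)) := fun i =>
    (compList_replicate a i).symm
  simp only [h]
  rfl

include hH

/-- **Main theorem.** -/
theorem main {a : C.A (X.prod X)} {P : ℕ → ℚ[X]} (h : Separates H a P) :
    ∃ (π : ℕ → C.A (X.prod X)) (E : ℕ → ℚ[X]), IsCK H X π ∧
      ∀ i ≤ 2 * X.dim, π i = evalAt C a (E i) := by
  obtain ⟨hdeg, hcop, hact, m, hm⟩ := h
  set N := 2 * X.dim + 1 with hN
  have hcop' : ∀ i < N, ∀ j < N, i ≠ j → IsCoprime (P i) (P j) := fun i hi j hj hij =>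
    hcop i (by omega) j (by omega) hij
  obtain ⟨E, hE1, hE2⟩ := crt N P hcop' (m + 1)
  have hpow : aeval (cor a) (∏ i ∈ Finset.range N, P i ^ (m + 1)) = 0 := by
    rw [Finset.prod_pow, map_pow, ← evalAt_eq, pow_succ, ← compList_replicate]
    have e : cor (compList C X (List.replicate m (evalAt C a (∏ i ∈ Finset.range N, P i)))) = 0 :=
      hm
    rw [e, zero_mul]
  have hz : ∀ D : ℚ[X], (∀ l < N, P l ^ (m + 1) ∣ D) → aeval (cor a) D = 0 := by
    intro D hD
    have h1 : (∏ i ∈ Finset.range N, P i ^ (m + 1)) ∣ D := by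
      apply Finset.prod_dvd_of_coprime
      · intro i hi j hj hij
        rw [Finset.mem_coe, Finset.mem_range] at hi hj
        exact (hcop' i hi j hj hij).pow
      · intro i hi
        exact hD i (Finset.mem_range.1 hi)
    obtain ⟨q, hq⟩ := h1
    rw [hq, map_mul, hpow, zero_mul]
  have hx : ∀ i < N, ∀ x ∈ H.gr X i, ∀ D : ℚ[X], P i ∣ D → actH C X H (aeval (cor a) D) x = 0 := by
    intro i hi x hx D hD
    obtain ⟨q, hq⟩ := hD
    rw [hq, mul_comm, map_mul, map_mul, Module.End.mul_apply, ← evalAt_eq a (P i)]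
    have e : actH C X H (cor (evalAt C a (P i))) x = 0 := hact i (by omega) x hx
    rw [e, map_zero]
  have hb : ∀ (n : ℤ) (x : H.A X), x ∈ H.gr X n → x ≠ 0 → ∃ j < N, n = (j : ℕ) := by
    intro n x hx hx0
    have h0 : 0 ≤ n := nonneg_of_mem H hx hx0
    have h1 : n ≤ 2 * X.dim := by
      by_contra hc
      have h2 := gr_top H (X := X) (i := n) (by omega)
      rw [h2] at hx
      exact hx0 ((Submodule.mem_bot _).1 hx)
    obtain ⟨j, rfl⟩ := Int.eq_ofNat_of_zero_le h0
    exact ⟨j, by omega, rfl⟩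
  have hdeg' : ∀ D : ℚ[X], aeval (cor a) D ∈ cor0 C X := fun D => aeval_mem (H := H) hdeg D
  let p : ℕ → Cor C X := fun i => if i < N then aeval (cor a) (E i) else 0
  have hp : ∀ i < N, p i = aeval (cor a) (E i) := fun i hi => if_pos hi
  have hp0 : ∀ i, ¬ i < N → p i = 0 := fun i hi => if_neg hi
  have horth : ∀ i j, i ≠ j → p i * p j = 0 := by
    intro i j hij
    by_cases hi : i < N
    · by_cases hj : j < N
      · rw [hp i hi, hp j hj, ← map_mul]
        apply hz
        intro l hl
        by_cases hli : i = l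
        · subst hli
          exact Dvd.dvd.mul_left (hE2 j hj i hi (Ne.symm hij)) _
        · exact Dvd.dvd.mul_right (hE2 i hi l hl hli) _
      · rw [hp0 j hj, mul_zero]
    · rw [hp0 i hi, zero_mul]
  have hidem : ∀ i, p i * p i = p i := by
    intro i
    by_cases hi : i < N
    · rw [hp i hi, ← map_mul, ← sub_eq_zero, ← map_sub]
      apply hz
      intro l hl
      have e : E i * E i - E i = E i * (E i - 1) := by ring
      rw [e]
      by_cases hli : i = l
      · subst hli
        exact Dvd.dvd.mul_left (hE1 i hi) _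
      · exact Dvd.dvd.mul_right (hE2 i hi l hl hli) _
    · rw [hp0 i hi, zero_mul]
  have hsum : ∑ i ∈ Finset.range N, p i = 1 := by
    have e1 : ∑ i ∈ Finset.range N, p i = aeval (cor a) (∑ i ∈ Finset.range N, E i) := by
      rw [map_sum]
      exact Finset.sum_congr rfl fun i hi => hp i (Finset.mem_range.1 hi)
    rw [e1, ← sub_eq_zero, ← map_one (aeval (cor a) : ℚ[X] →ₐ[ℚ] Cor C X), ← map_sub]
    apply hz
    intro l hl
    rw [← Finset.add_sum_erase _ _ (Finset.mem_range.2 hl)]
    have e2 : E l + ∑ x ∈ (Finset.range N).erase l, E x - 1 =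
        (E l - 1) + ∑ x ∈ (Finset.range N).erase l, E x := by ring
    rw [e2]
    refine dvd_add (hE1 l hl) (Finset.dvd_sum fun x hx => ?_)
    rw [Finset.mem_erase, Finset.mem_range] at hx
    exact hE2 x hx.2 l hl hx.1
  have hpd : ∀ {i : ℕ} {D : ℚ[X]}, P i ^ (m + 1) ∣ D → P i ∣ D := fun h =>
    (dvd_pow_self _ (Nat.succ_ne_zero m)).trans h
  refine ⟨p, E, ⟨?_, ?_, ?_, ?_, ?_, ?_, ?_⟩, fun i hi => ?_⟩
  · intro i
    by_cases hi : i < N
    · have := hdeg' (E i)
      rw [← hp i hi] at this
      exact this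
    · rw [hp0 i hi]
      exact (cor0 C X).zero_mem
  · intro i hi
    exact hp0 i (by omega)
  · exact hidem
  · intro i j hij
    exact horth j i (Ne.symm hij)
  · exact hsum
  · intro i x hx'
    by_cases hx0 : x = 0
    · rw [hx0]
      exact LinearMap.map_zero (actH C X H (p i))
    · obtain ⟨j, hj, hij⟩ := hb i x hx' hx0
      have hij' : i = j := by exact_mod_cast hij
      subst hij'
      have e := hx i hj x hx' (E i - 1) (hpd (hE1 i hj))
      rw [map_sub, map_one, map_sub, map_one, LinearMap.sub_apply, Module.End.one_apply,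
        sub_eq_zero, ← hp i hj] at e
      exact e
  · intro i n x hn hx'
    by_cases hx0 : x = 0
    · rw [hx0]
      exact LinearMap.map_zero (actH C X H (p i))
    · obtain ⟨j, hj, rfl⟩ := hb n x hx' hx0
      have hji : i ≠ j := by
        rintro rfl
        exact hn rfl
      by_cases hi : i < N
      · have e := hx j hj x hx' (E i) (hpd (hE2 i hi j hj hji))
        rw [← hp i hi] at e
        exact e
      · rw [hp0 i hi]
        exact LinearMap.congr_fun (map_zero (actH C X H)) x
  · have e := hp i (by omega)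
    rw [← evalAt_eq] at e
    exact e

/-- The converse. -/
theorem converse {π : ℕ → C.A (X.prod X)} (h : IsCK H X π) :
    ∃ (a : C.A (X.prod X)) (P : ℕ → ℚ[X]), Separates H a P := by
  set N := 2 * X.dim + 1 with hN
  let p : ℕ → Cor C X := fun i => cor (π i)
  have hp : ∀ i j, p i * p j = if i = j then p i else 0 := fun i j =>
    IsCK.mul_eq (P := p) h i j
  have hs : ∑ i ∈ Finset.range N, p i = 1 := h.sum
  let a : Cor C X := ∑ i ∈ Finset.range N, i • p i
  have hap : ∀ j < N, a * p j = j • p j := by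
    intro j hj
    simp only [a]
    rw [Finset.sum_mul, Finset.sum_eq_single j]
    · rw [smul_mul_assoc, hp, if_pos rfl]
    · intro b _ hb
      rw [smul_mul_assoc, hp, if_neg hb, smul_zero]
    · intro h5
      exact absurd (Finset.mem_range.2 hj) h5
  have hX : ∀ j < N, aeval a (Polynomial.X - Polynomial.C (j : ℚ)) * p j = 0 := by
    intro j hj
    rw [map_sub, aeval_X, aeval_C, sub_mul, hap j hj, map_natCast, nsmul_eq_mul, sub_self]
  refine ⟨a, fun i => Polynomial.X - Polynomial.C (i : ℚ), ?_, ?_, ?_, 1, ?_⟩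
  · exact (cor0 C X).sum_mem fun i _ => (cor0 C X).nsmul_mem (h.deg i) i
  · intro i _ j _ hij
    apply isCoprime_X_sub_C_of_isUnit_sub
    rw [isUnit_iff_ne_zero, sub_ne_zero]
    exact_mod_cast hij
  · intro j hj x hx
    have e1 : actH C X H (cor (evalAt C a (Polynomial.X - Polynomial.C (j : ℚ)))) x = 0 := by
      rw [evalAt_eq]
      have e2 : aeval (cor a) (Polynomial.X - Polynomial.C (j : ℚ)) = a - (j : Cor C X) := by
        rw [map_sub, aeval_X, aeval_C, map_natCast]
        rfl
      rw [e2, map_sub, map_natCast, LinearMap.sub_apply]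
      have e3 : ∀ i, actH C X H (p i) x = if i = j then x else 0 := by
        intro i
        have e4 : actH C X H (p i) x = if ((j : ℕ) : ℤ) = i then x else 0 := h.actH_eq i j hx
        rw [e4]
        by_cases hi : i = j
        · rw [if_pos (by exact_mod_cast hi.symm), if_pos hi]
        · rw [if_neg (by exact_mod_cast (Ne.symm hi)), if_neg hi]
      have e5 : actH C X H a x = j • x := by
        simp only [a]
        rw [map_sum, LinearMap.sum_apply, Finset.sum_eq_single j]
        · rw [map_nsmul, LinearMap.smul_apply, e3, if_pos rfl]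
        · intro b _ hb
          rw [map_nsmul, LinearMap.smul_apply, e3, if_neg hb, smul_zero]
        · intro h5
          exact absurd (Finset.mem_range.2 (by omega)) h5
      rw [e5, Module.End.natCast_apply, sub_self]
    exact e1
  · have e1 : aeval a (∏ i ∈ Finset.range N, (Polynomial.X - Polynomial.C (i : ℚ))) = 0 := by
      rw [← mul_one (aeval a (∏ i ∈ Finset.range N, (Polynomial.X - Polynomial.C (i : ℚ)))), ← hs, Finset.mul_sum]
      refine Finset.sum_eq_zero fun j hj => ?_
      rw [← Finset.prod_erase_mul _ _ hj, map_mul, mul_assoc, hX j (Finset.mem_range.1 hj),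
        mul_zero]
    have e2 : cor (compList C X (List.replicate 1
        (evalAt C a (∏ i ∈ Finset.range N, (Polynomial.X - Polynomial.C (i : ℚ)))))) = 0 := by
      rw [compList_replicate, pow_one, evalAt_eq]
      exact e1
    exact e2

end Pool.Agent.V11244.CK
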