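import Pool.Agent.V11244.CK.Skew

/-!
# Murre's conjecture (B) and the eigenvalues of one correspondence
-/

open CategoryTheory AlgebraicGeometry Polynomial

universe u v w

namespace Pool.Agent.V11244.CK

open Pool.Agent.H914 Pool.Agent.H914.VarClass Pool.Agent.H914.VarClass.Obj Pool.Agent.W492.BB
  Pool.Agent.W550.Corr Pool.Agent.TH133 Pool.Agent.V11244.SD

set_option linter.unusedSectionVars false

variable {k : Type u} [Field k] {𝒱 : VarClass k}

/-- The product of the polynomials `P j` for `i ≤ j ≤ 2 i` (and `j ≤ 2 dim X`). -/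
noncomputable def midProd (X : 𝒱.Obj) (P : ℕ → ℚ[X]) (i : ℕ) : ℚ[X] :=
  ∏ j ∈ (Finset.range (2 * X.dim + 1)).filter (fun j => i ≤ j ∧ j ≤ 2 * i), P j

variable {C : TheoryData.{u, v, 0} 𝒱 ℚ} [hC : IsChowProj C] {K : Type w} [Field K]
  {H : WeilTheoryData.{u, v, w} C K} [hH : IsWeilProj H] {X : 𝒱.Obj}

include hC hH

theorem b_main {a : C.A (X.prod X)} {P : ℕ → ℚ[X]} (h : Separates H a P) :
    ∃ (π : ℕ → C.A (X.prod X)) (E : ℕ → ℚ[X]), IsCK H X π ∧
      (∀ i ≤ 2 * X.dim, π i = evalAt C a (E i)) ∧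
      ∀ i : ℕ, (ckFil C π i 0 = C.gr X i ∧ ckFil C π i (i + 1) = ⊥) ↔
        ∃ m : ℕ, ∀ x ∈ C.gr X i, C.act (evalAt C a (midProd X P i ^ m)) x = 0 := by
  obtain ⟨p, E, m, hCK, hp, hE1, hE2, hz⟩ := main_full h
  have hcop := h.2.1
  have hev : ∀ (D : ℚ[X]) (x : C.A X), C.act (evalAt C a D) x = actC C X (aeval (cor a) D) x := by
    intro D x
    rw [← evalAt_eq]
    rfl
  have hpx : ∀ (j : ℕ) (x : C.A X), C.act (X := X) (Y := X) (p j) x = actC C X (p j) x :=
    fun _ _ => rfl
  have hp0 : ∀ j, ¬ j < 2 * X.dim + 1 → p j = 0 := fun j hj => hCK.out j (by omega)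
  have hmul : ∀ i j, p i * p j = if i = j then p i else 0 := fun i j => hCK.mul_eq i j
  have hsum : ∀ x : C.A X, ∑ j ∈ Finset.range (2 * X.dim + 1), actC C X (p j) x = x := by
    intro x
    rw [← LinearMap.sum_apply, ← map_sum, hCK.sum_eq, map_one]
    rfl
  refine ⟨p, E, hCK, fun i hi => ?_, fun i => ⟨?_, ?_⟩⟩
  · have e := hp i (by omega)
    rw [← evalAt_eq] at e
    exact e
  · rintro ⟨h0, h1⟩
    have hlow : ∀ x ∈ C.gr X i, ∀ j, j < i → actC C X (p j) x = 0 := by
      intro x hx j hj
      have h2 : actC C X (p j) x ∈ ckFil C p i (i + 1) := by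
        rw [hCK.mem_ckFil]
        refine ⟨act_mem0 C (hCK.deg j) hx, fun l hl => ?_⟩
        rw [hpx, ← Module.End.mul_apply, ← map_mul, hmul, if_neg (by omega), map_zero]
        rfl
      rw [h1] at h2
      exact (Submodule.mem_bot _).1 h2
    have hhigh : ∀ x ∈ C.gr X i, ∀ j, 2 * i < j → actC C X (p j) x = 0 := by
      intro x hx j hj
      rw [← h0, hCK.mem_ckFil] at hx
      exact hx.2 j (by omega)
    refine ⟨m + 1, fun x hx => ?_⟩
    rw [hev]
    conv_lhs => rw [← hsum x]
    rw [map_sum]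
    refine Finset.sum_eq_zero fun l hl => ?_
    rw [Finset.mem_range] at hl
    by_cases hl' : i ≤ l ∧ l ≤ 2 * i
    · rw [← Module.End.mul_apply, ← map_mul, hp l hl, ← map_mul, hz, map_zero]
      · rfl
      · intro t ht
        by_cases htl : l = t
        · subst htl
          refine Dvd.dvd.mul_right (pow_dvd_pow_of_dvd ?_ _) _
          exact Finset.dvd_prod_of_mem _ (Finset.mem_filter.2 ⟨Finset.mem_range.2 hl, hl'⟩)
        · exact Dvd.dvd.mul_left (hE2 l hl t ht htl) _
    · have e : actC C X (p l) x = 0 := by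
        by_cases h3 : l < i
        · exact hlow x hx l h3
        · exact hhigh x hx l (by omega)
      rw [e, map_zero]
  · rintro ⟨m', hm'⟩
    have hv : ∀ x ∈ C.gr X i, ∀ j, ¬ (i ≤ j ∧ j ≤ 2 * i) → actC C X (p j) x = 0 := by
      intro x hx j hj
      by_cases hjN : j < 2 * X.dim + 1
      · have h1 : IsCoprime (midProd X P i ^ m') (P j ^ (m + 1)) := by
          refine IsCoprime.pow (IsCoprime.prod_left fun l hl => ?_)
          rw [Finset.mem_filter, Finset.mem_range] at hl
          refine hcop l (by omega) j (by omega) ?_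
          rintro rfl
          exact hj hl.2
        obtain ⟨U, V, hUV⟩ := h1
        have e1 : E j = (E j * U) * midProd X P i ^ m' + V * (P j ^ (m + 1) * E j) := by
          calc E j = E j * (U * midProd X P i ^ m' + V * P j ^ (m + 1)) := by rw [hUV, mul_one]
            _ = _ := by ring
        have e2 : aeval (cor a) (P j ^ (m + 1) * E j) = 0 := by
          apply hz
          intro t ht
          by_cases htj : j = t
          · subst htj
            exact Dvd.intro _ rfl
          · exact Dvd.dvd.mul_left (hE2 j hjN t ht htj) _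
        have e3 : actC C X (aeval (cor a) (midProd X P i ^ m')) x = 0 := by
          rw [← hev]
          exact hm' x hx
        rw [hp j hjN, e1, map_add, map_mul, map_mul (aeval (cor a)) V, e2, mul_zero, add_zero,
          map_mul, Module.End.mul_apply, e3, map_zero]
      · rw [hp0 j hjN, map_zero]
        rfl
    constructor
    · ext x
      rw [hCK.mem_ckFil]
      exact ⟨fun h' => h'.1, fun hx => ⟨hx, fun j hj => hv x hx j (by omega)⟩⟩
    · rw [eq_bot_iff]
      intro x hx
      rw [hCK.mem_ckFil] at hx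
      rw [Submodule.mem_bot, ← hsum x]
      refine Finset.sum_eq_zero fun l _ => ?_
      by_cases hl : i ≤ l
      · exact hx.2 l (by omega)
      · exact hv x hx.1 l (by omega)

end Pool.Agent.V11244.CK
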