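import Pool.Agent.V11244.CK.Main

/-!
# Self-dual Chow-Kunneth decompositions from one skew correspondence
-/

open CategoryTheory AlgebraicGeometry Polynomial

universe u v w

namespace Pool.Agent.V11244.CK

open Pool.Agent.H914 Pool.Agent.H914.VarClass Pool.Agent.H914.VarClass.Obj Pool.Agent.W492.BB
  Pool.Agent.W550.Corr Pool.Agent.TH133 Pool.Agent.V11244.SD

set_option linter.unusedSectionVars false

variable {k : Type u} [Field k] {𝒱 : VarClass k}

/-- The linear polynomial `T - (i - d)`. -/
noncomputable def lin (d i : ℕ) : ℚ[X] := Polynomial.X - Polynomial.C (((i : ℤ) - d : ℤ) : ℚ)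

lemma lin_coprime (d : ℕ) {i j : ℕ} (hij : i ≠ j) : IsCoprime (lin d i) (lin d j) := by
  apply isCoprime_X_sub_C_of_isUnit_sub
  rw [isUnit_iff_ne_zero, sub_ne_zero]
  intro h
  apply hij
  have h2 : ((i : ℤ) - d : ℤ) = (j : ℤ) - d := by exact_mod_cast h
  omega

lemma lin_neg (d : ℕ) {i : ℕ} (hi : i ≤ 2 * d) :
    (lin d (2 * d - i)).comp (-Polynomial.X) = -lin d i := by
  unfold lin
  rw [Polynomial.sub_comp, X_comp, C_comp]
  have h : ((((2 * d - i : ℕ) : ℤ) - d : ℤ) : ℚ) = -(((i : ℤ) - d : ℤ) : ℚ) := by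
    rw [Nat.cast_sub hi]
    push_cast
    ring
  rw [h, C_neg]
  ring

/-- The correspondence `b` of degree zero is skew (its transpose is `-b`), it acts on `H^i(X)` as
the multiplication by `i - d`, `d = dim X`, and the product of the correspondences `b - j`,
`-d ≤ j ≤ d`, is nilpotent. -/
def IsSkewDegree {C : TheoryData.{u, v, 0} 𝒱 ℚ} {K : Type w} [Field K]
    (H : WeilTheoryData.{u, v, w} C K) {X : 𝒱.Obj} (b : C.A (X.prod X)) : Prop :=
  C.Deg X.dim b ∧ tp C b = -b ∧
    (∀ (i : ℕ) (x : H.A X), H.Deg i x → H.act (H.cl b) x = ((i : ℤ) - X.dim) • x) ∧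
    ∃ m, PowZero C (evalAt C b (∏ i ∈ Finset.range (2 * X.dim + 1), lin X.dim i)) m

variable {C : TheoryData.{u, v, 0} 𝒱 ℚ} [hC : IsChowProj C] {K : Type w} [Field K]
  {H : WeilTheoryData.{u, v, w} C K} [hH : IsWeilProj H] {X : 𝒱.Obj}

include hC hH

/-- **Main theorem.** -/
theorem main_full {a : C.A (X.prod X)} {P : ℕ → ℚ[X]} (h : Separates H a P) :
    ∃ (p : ℕ → Cor C X) (E : ℕ → ℚ[X]) (m : ℕ), IsCK H X p ∧
      (∀ i < 2 * X.dim + 1, p i = aeval (cor a) (E i)) ∧
      (∀ i < 2 * X.dim + 1, P i ^ (m + 1) ∣ E i - 1) ∧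
      (∀ i < 2 * X.dim + 1, ∀ j < 2 * X.dim + 1, i ≠ j → P j ^ (m + 1) ∣ E i) ∧
      ∀ D : ℚ[X], (∀ l < 2 * X.dim + 1, P l ^ (m + 1) ∣ D) → aeval (cor a) D = 0 := by
  obtain ⟨hdeg, hcop, hact, m, hm⟩ := h
  set N := 2 * X.dim + 1 with hN
  have hcop' : ∀ i < N, ∀ j < N, i ≠ j → IsCoprime (P i) (P j) := fun i hi j hj hij =>
    hcop i (by omega) j (by omega) hij
  obtain ⟨E, hE1, hE2⟩ := crt N P hcop' (m + 1)
  have hpow : aeval (cor a) (∏ i ∈ Finset.range N, P i ^ (m + 1)) = 0 := by
    rw [Finset.prod_pow, map_pow, ← evalAt_eq, pow_succ, ← compList_replicate]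
    have e : cor (compList C X (List.replicate m (evalAt C a (∏ i ∈ Finset.range N, P i)))) = 0 :=
      hm
    rw [e, zero_mul]
  have hz : ∀ D : ℚ[X], (∀ l < N, P l ^ (m + 1) ∣ D) → aeval (cor a) D = 0 := by
    intro D hD
    have h1 : (∏ i ∈ Finset.range N, P i ^ (m + 1)) ∣ D := by
      apply Finset.prod_dvd_of_coprime
      · intro i hi j hj hij
        rw [Finset.mem_coe, Finset.mem_range] at hi hj
        exact (hcop' i hi j hj hij).pow
      · intro i hi
        exact hD i (Finset.mem_range.1 hi)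
    obtain ⟨q, hq⟩ := h1
    rw [hq, map_mul, hpow, zero_mul]
  have hx : ∀ i < N, ∀ x ∈ H.gr X i, ∀ D : ℚ[X], P i ∣ D → actH C X H (aeval (cor a) D) x = 0 := by
    intro i hi x hx D hD
    obtain ⟨q, hq⟩ := hD
    rw [hq, mul_comm, map_mul, map_mul, Module.End.mul_apply, ← evalAt_eq a (P i)]
    have e : actH C X H (cor (evalAt C a (P i))) x = 0 := hact i (by omega) x hx
    rw [e, map_zero]
  have hb : ∀ (n : ℤ) (x : H.A X), x ∈ H.gr X n → x ≠ 0 → ∃ j < N, n = (j : ℕ) := by
    intro n x hx hx0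
    have h0 : 0 ≤ n := nonneg_of_mem H hx hx0
    have h1 : n ≤ 2 * X.dim := by
      by_contra hc
      have h2 := gr_top H (X := X) (i := n) (by omega)
      rw [h2] at hx
      exact hx0 ((Submodule.mem_bot _).1 hx)
    obtain ⟨j, rfl⟩ := Int.eq_ofNat_of_zero_le h0
    exact ⟨j, by omega, rfl⟩
  have hdeg' : ∀ D : ℚ[X], aeval (cor a) D ∈ cor0 C X := fun D => aeval_mem (H := H) hdeg D
  let p : ℕ → Cor C X := fun i => if i < N then aeval (cor a) (E i) else 0
  have hp : ∀ i < N, p i = aeval (cor a) (E i) := fun i hi => if_pos hi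
  have hp0 : ∀ i, ¬ i < N → p i = 0 := fun i hi => if_neg hi
  have horth : ∀ i j, i ≠ j → p i * p j = 0 := by
    intro i j hij
    by_cases hi : i < N
    · by_cases hj : j < N
      · rw [hp i hi, hp j hj, ← map_mul]
        apply hz
        intro l hl
        by_cases hli : i = l
        · subst hli
          exact Dvd.dvd.mul_left (hE2 j hj i hi (Ne.symm hij)) _
        · exact Dvd.dvd.mul_right (hE2 i hi l hl hli) _
      · rw [hp0 j hj, mul_zero]
    · rw [hp0 i hi, zero_mul]
  have hidem : ∀ i, p i * p i = p i := by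
    intro i
    by_cases hi : i < N
    · rw [hp i hi, ← map_mul, ← sub_eq_zero, ← map_sub]
      apply hz
      intro l hl
      have e : E i * E i - E i = E i * (E i - 1) := by ring
      rw [e]
      by_cases hli : i = l
      · subst hli
        exact Dvd.dvd.mul_left (hE1 i hi) _
      · exact Dvd.dvd.mul_right (hE2 i hi l hl hli) _
    · rw [hp0 i hi, zero_mul]
  have hsum : ∑ i ∈ Finset.range N, p i = 1 := by
    have e1 : ∑ i ∈ Finset.range N, p i = aeval (cor a) (∑ i ∈ Finset.range N, E i) := by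
      rw [map_sum]
      exact Finset.sum_congr rfl fun i hi => hp i (Finset.mem_range.1 hi)
    rw [e1, ← sub_eq_zero, ← map_one (aeval (cor a) : ℚ[X] →ₐ[ℚ] Cor C X), ← map_sub]
    apply hz
    intro l hl
    rw [← Finset.add_sum_erase _ _ (Finset.mem_range.2 hl)]
    have e2 : E l + ∑ x ∈ (Finset.range N).erase l, E x - 1 =
        (E l - 1) + ∑ x ∈ (Finset.range N).erase l, E x := by ring
    rw [e2]
    refine dvd_add (hE1 l hl) (Finset.dvd_sum fun x hx => ?_)
    rw [Finset.mem_erase, Finset.mem_range] at hx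
    exact hE2 x hx.2 l hl hx.1
  have hpd : ∀ {i : ℕ} {D : ℚ[X]}, P i ^ (m + 1) ∣ D → P i ∣ D := fun h =>
    (dvd_pow_self _ (Nat.succ_ne_zero m)).trans h
  refine ⟨p, E, m, ⟨?_, ?_, ?_, ?_, ?_, ?_, ?_⟩, hp, hE1, hE2, hz⟩
  · intro i
    by_cases hi : i < N
    · have := hdeg' (E i)
      rw [← hp i hi] at this
      exact this
    · rw [hp0 i hi]
      exact (cor0 C X).zero_mem
  · intro i hi
    exact hp0 i (by omega)
  · exact hidem
  · intro i j hij
    exact horth j i (Ne.symm hij)
  · exact hsum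
  · intro i x hx'
    by_cases hx0 : x = 0
    · rw [hx0]
      exact LinearMap.map_zero (actH C X H (p i))
    · obtain ⟨j, hj, hij⟩ := hb i x hx' hx0
      have hij' : i = j := by exact_mod_cast hij
      subst hij'
      have e := hx i hj x hx' (E i - 1) (hpd (hE1 i hj))
      rw [map_sub, map_one, map_sub, map_one, LinearMap.sub_apply, Module.End.one_apply,
        sub_eq_zero, ← hp i hj] at e
      exact e
  · intro i n x hn hx'
    by_cases hx0 : x = 0
    · rw [hx0]
      exact LinearMap.map_zero (actH C X H (p i))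
    · obtain ⟨j, hj, rfl⟩ := hb n x hx' hx0
      have hji : i ≠ j := by
        rintro rfl
        exact hn rfl
      by_cases hi : i < N
      · have e := hx j hj x hx' (E i) (hpd (hE2 i hi j hj hji))
        rw [← hp i hi] at e
        exact e
      · rw [hp0 i hi]
        exact LinearMap.congr_fun (map_zero (actH C X H)) x

lemma skew_separates {b : C.A (X.prod X)} (h : IsSkewDegree H b) :
    Separates H b (lin X.dim) := by
  obtain ⟨h1, h2, h3, h4⟩ := h
  refine ⟨h1, fun i _ j _ hij => lin_coprime _ hij, fun i hi x hx => ?_, h4⟩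
  have e1 : actH C X H (cor (evalAt C b (lin X.dim i))) x = 0 := by
    rw [evalAt_eq]
    have e2 : aeval (cor b) (lin X.dim i) = cor b - (((i : ℤ) - X.dim : ℤ) : Cor C X) := by
      unfold lin
      rw [map_sub, aeval_X, aeval_C, map_intCast]
    rw [e2, map_sub, map_intCast, LinearMap.sub_apply, Module.End.intCast_apply]
    have e3 : actH C X H (cor b) x = ((i : ℤ) - X.dim) • x := h3 i x hx
    rw [e3, sub_self]
  exact e1

/-- **Main theorem.** -/
theorem skew_main {b : C.A (X.prod X)} (h : IsSkewDegree H b) :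
    ∃ π : ℕ → C.A (X.prod X), IsCK H X π ∧ IsSelfDual C π := by
  obtain ⟨p, E, m, hCK, hp, hE1, hE2, hz⟩ := main_full (skew_separates h)
  refine ⟨p, hCK, fun i hi => ?_⟩
  have hb : tpR C X (cor b) = -cor b := h.2.1
  have e1 : ∀ D : ℚ[X], tpR C X (aeval (cor b) D) = aeval (cor b) (D.comp (-Polynomial.X)) := by
    intro D
    have h1 : ∀ k : ℕ, tpR C X ((cor b) ^ k) = (-cor b) ^ k := by
      intro k
      induction k with
      | zero => rw [pow_zero, pow_zero, tpR_one]
      | succ k ih => rw [pow_succ, tpR_mul, ih, hb, ← pow_succ']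
    rw [aeval_comp, map_neg, aeval_X, aeval_eq_sum_range, aeval_eq_sum_range, map_sum]
    exact Finset.sum_congr rfl fun k _ => by rw [tpR_smul, h1]
  have e2 : tpR C X (p i) = p (2 * X.dim - i) := by
    rw [hp i (by omega), hp (2 * X.dim - i) (by omega), e1, ← sub_eq_zero, ← map_sub]
    apply hz
    intro l hl
    have e3 : ∀ D : ℚ[X], lin X.dim (2 * X.dim - l) ^ (m + 1) ∣ D →
        lin X.dim l ^ (m + 1) ∣ D.comp (-Polynomial.X) := by
      rintro D ⟨q, rfl⟩
      rw [Polynomial.mul_comp, Polynomial.pow_comp, lin_neg _ (by omega), neg_pow]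
      exact Dvd.dvd.mul_right (Dvd.dvd.mul_left dvd_rfl _) _
    by_cases hli : l = 2 * X.dim - i
    · subst hli
      have h1 := e3 (E i - 1) (by
        rw [show 2 * X.dim - (2 * X.dim - i) = i by omega]
        exact hE1 i (by omega))
      have h2 := hE1 (2 * X.dim - i) (by omega)
      have e4 : (E i).comp (-Polynomial.X) - E (2 * X.dim - i) =
          (E i - 1).comp (-Polynomial.X) - (E (2 * X.dim - i) - 1) := by
        rw [Polynomial.sub_comp, one_comp]
        ring
      rw [e4]
      exact dvd_sub h1 h2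
    · exact dvd_sub (e3 (E i) (hE2 i (by omega) _ (by omega) (by omega)))
        (hE2 _ (by omega) l hl (Ne.symm hli))
  exact e2

/-- The converse. -/
theorem skew_converse {π : ℕ → C.A (X.prod X)} (h : IsCK H X π) (hs : IsSelfDual C π) :
    ∃ b : C.A (X.prod X), IsSkewDegree H b := by
  set N := 2 * X.dim + 1 with hN
  let p : ℕ → Cor C X := fun i => cor (π i)
  have hp : ∀ i j, p i * p j = if i = j then p i else 0 := fun i j =>
    IsCK.mul_eq (P := p) h i j
  have hsum : ∑ i ∈ Finset.range N, p i = 1 := h.sum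
  let a : Cor C X := ∑ i ∈ Finset.range N, ((i : ℤ) - X.dim) • p i
  have hap : ∀ j < N, a * p j = ((j : ℤ) - X.dim) • p j := by
    intro j hj
    simp only [a]
    rw [Finset.sum_mul, Finset.sum_eq_single j]
    · rw [smul_mul_assoc, hp, if_pos rfl]
    · intro b _ hb
      rw [smul_mul_assoc, hp, if_neg hb, smul_zero]
    · intro h5
      exact absurd (Finset.mem_range.2 hj) h5
  have hX : ∀ j < N, aeval a (lin X.dim j) * p j = 0 := by
    intro j hj
    unfold lin
    rw [map_sub, aeval_X, aeval_C, sub_mul, hap j hj, map_intCast, zsmul_eq_mul, sub_self]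
  refine ⟨a, ?_, ?_, ?_, 1, ?_⟩
  · exact (cor0 C X).sum_mem fun i _ => (cor0 C X).zsmul_mem (h.deg i) _
  · have e1 : tpR C X a = -a := by
      simp only [a]
      rw [map_sum, ← Finset.sum_neg_distrib, ← Finset.sum_range_reflect]
      refine Finset.sum_congr rfl fun i hi => ?_
      rw [Finset.mem_range] at hi
      have e2 : tpR C X (p (N - 1 - i)) = p i := by
        have e3 : tpR C X (p (N - 1 - i)) = p (2 * X.dim - (N - 1 - i)) := hs _ (by omega)
        rw [e3]
        congr 1
        omega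
      rw [map_zsmul, e2, ← neg_smul]
      congr 1
      have : ((N - 1 - i : ℕ) : ℤ) = 2 * X.dim - i := by omega
      rw [this]
      ring
    exact e1
  · intro j x hx
    by_cases hx0 : x = 0
    · rw [hx0, smul_zero]
      exact LinearMap.map_zero (actH C X H a)
    have hj : j < N := by
      by_contra hc
      have hx' : x ∈ H.gr X (j : ℤ) := hx
      have h2 := gr_top H (X := X) (i := (j : ℤ)) (by omega)
      rw [h2] at hx'
      exact hx0 ((Submodule.mem_bot _).1 hx')
    have e3 : ∀ i, actH C X H (p i) x = if i = j then x else 0 := by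
      intro i
      have e4 : actH C X H (p i) x = if ((j : ℕ) : ℤ) = i then x else 0 := h.actH_eq i j hx
      rw [e4]
      by_cases hi : i = j
      · rw [if_pos (by exact_mod_cast hi.symm), if_pos hi]
      · rw [if_neg (by exact_mod_cast (Ne.symm hi)), if_neg hi]
    have e5 : actH C X H a x = ((j : ℤ) - X.dim) • x := by
      simp only [a]
      rw [map_sum, LinearMap.sum_apply, Finset.sum_eq_single j]
      · rw [map_zsmul, LinearMap.smul_apply, e3, if_pos rfl]
      · intro b _ hb
        rw [map_zsmul, LinearMap.smul_apply, e3, if_neg hb, smul_zero]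
      · intro h5
        exact absurd (Finset.mem_range.2 hj) h5
    exact e5
  · have e1 : aeval a (∏ i ∈ Finset.range N, lin X.dim i) = 0 := by
      rw [← mul_one (aeval a (∏ i ∈ Finset.range N, lin X.dim i)), ← hsum, Finset.mul_sum]
      refine Finset.sum_eq_zero fun j hj => ?_
      rw [← Finset.prod_erase_mul _ _ hj, map_mul, mul_assoc, hX j (Finset.mem_range.1 hj),
        mul_zero]
    have e2 : cor (compList C X (List.replicate 1
        (evalAt C a (∏ i ∈ Finset.range N, lin X.dim i)))) = 0 := by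
      rw [compList_replicate, pow_one, evalAt_eq]
      exact e1
    exact e2

end Pool.Agent.V11244.CK
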